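import Pool.Agent.H315R3.ETC.Defs

/-! # Isolated value groups of quaternionic structures -/

set_option autoImplicit false

namespace Pool.Agent.L0h68.IV

open Pool.Agent.H315R3.ETC

section
variable {S : QData} (h : IsQuat S)

include h in
theorem o_symm {a b : S.G} (e : S.q a b = S.zero) : S.q b a = S.zero := by
  rw [h.qs2]; exact e

include h in
theorem o_one (a : S.G) : S.q a 1 = S.zero := by
  have := (h.qs3 a 1 1).1 rfl
  rwa [mul_one] at this

include h in
theorem o_mul {a b c : S.G} (e : S.q a b = S.zero) (e' : S.q a c = S.zero) :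
    S.q a (b * c) = S.zero := (h.qs3 a b c).1 (by rw [e, e'])

include h in
theorem o_mul' {a b c : S.G} (e : S.q b a = S.zero) (e' : S.q c a = S.zero) :
    S.q (b * c) a = S.zero := o_symm h (o_mul h (o_symm h e) (o_symm h e'))

include h in
theorem sq' (a b : S.G) : a * (a * b) = b := by rw [← mul_assoc, h.exp2, one_mul]

include h in
/-- `q(a, b c) = q(a, c)` if `a` is orthogonal to `b` -/
theorem o_shift {a b : S.G} (e : S.q a b = S.zero) (c : S.G) : S.q a (b * c) = S.q a c :=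
  (h.qs3 _ _ _).2 (by rw [mul_assoc, h.exp2, mul_one]; exact e)

variable (H : Subgroup S.G) (hH : ∀ x ∈ H, x ≠ 1 → ∀ y, S.q x y = S.zero ↔ y ∈ H)

include h hH in
theorem st0 {y z : S.G} (hy : y ∉ H) (hz : z ∈ H) (e : S.q y z = S.zero) : z = 1 := by
  by_contra hne
  exact hy ((hH z hz hne y).1 (o_symm h e))

include h hH in
theorem neg_mem (h4 : ∃ x ∈ H, x ≠ 1) : S.neg ∈ H := by
  obtain ⟨x, hx, hx1⟩ := h4
  have h1 := (hH x hx hx1 _).1 (h.qs1 x)
  have h2 := H.mul_mem h1 hx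
  rwa [mul_assoc, h.exp2, mul_one] at h2

include h hH in
theorem st2 {y v h1 k : S.G} (hy : y ∉ H) (hv : v ∉ H) (hyv : y * v ∉ H) (hh1 : h1 ∈ H)
    (hk : k ∈ H) (e : S.q y v = S.zero) (e' : S.q (h1 * y) (k * v) = S.zero) :
    h1 = 1 ∧ k = 1 := by
  by_cases h1' : h1 = 1
  · subst h1'
    refine ⟨rfl, st0 h H hH hy hk ?_⟩
    rw [one_mul] at e'
    have := o_mul h e' e
    rwa [mul_assoc, h.exp2, mul_one] at this
  · exfalso
    by_cases hk1 : k = 1
    · subst hk1
      rw [one_mul] at e'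
      have := o_mul h (o_symm h e') (o_symm h e)
      rw [mul_assoc, h.exp2, mul_one] at this
      exact h1' (st0 h H hH hv hh1 this)
    · have e1 : S.q y (k * v) = S.q y k := by rw [mul_comm, o_shift h e]
      have e2 : S.q (k * v) y = S.q (k * v) h1 := by
        rw [h.qs3, mul_comm y h1]; exact o_symm h e'
      have e3 : S.q h1 (k * v) = S.q h1 v := o_shift h ((hH h1 hh1 h1' k).2 hk) v
      have e4 : S.q k y = S.q h1 v := by
        rw [h.qs2 k y, ← e1, h.qs2 y, e2, h.qs2 _ h1, e3]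
      obtain ⟨x, hx1, hx2⟩ := h.qs4 _ _ _ _ e4
      have m1 := (hH k hk hk1 _).1 ((h.qs3 _ _ _).1 hx1)
      have m2 := (hH h1 hh1 h1' _).1 ((h.qs3 _ _ _).1 hx2)
      have m3 := H.mul_mem m1 m2
      rw [mul_mul_mul_comm, h.exp2, mul_one] at m3
      exact hyv m3

/-- `v` has an orthogonal element different from `1` and `-v` -/
def NR (S : QData) (v : S.G) : Prop := ∃ y, S.q v y = S.zero ∧ y ≠ 1 ∧ y ≠ S.neg * v

include h hH in
theorem st3 (hn : S.neg ∈ H) {v g c : S.G} (hv : v ∉ H) (hg : g ∈ H) (hg1 : g ≠ 1) (hc : c ∈ H)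
    (hc1 : c ≠ 1) (hcg : c ≠ S.neg * g) (hNR : NR S v) : NR S (g * v) := by
  obtain ⟨y, e, hy1, hyv⟩ := hNR
  have hyH : y ∉ H := fun hy => hy1 (st0 h H hH hv hy e)
  have hw : S.neg * v * y ∉ H := by
    intro hm
    have h1 : S.q v (S.neg * v * y) = S.zero := o_mul h (h.qs1 v) e
    have h2 := st0 h H hH hv hm h1
    apply hyv
    have := congrArg (fun z => S.neg * v * z) h2
    simp only [mul_one] at this
    rwa [sq' h] at this
  have e' : S.q y v = S.zero := o_symm h e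
  -- the linkage
  have t1 : S.q (g * v) y = S.q (c * y) g := by
    rw [h.qs2 (g * v) y, mul_comm g v, o_shift h e', h.qs2 (c * y) g,
      o_shift h ((hH g hg hg1 c).2 hc), h.qs2]
  obtain ⟨x, hx1, hx2⟩ := h.qs4 _ _ _ _ t1
  have k1 : S.q (g * v) (y * x) = S.zero := (h.qs3 _ _ _).1 hx1
  have k2 : S.q (c * y) (g * x) = S.zero := (h.qs3 _ _ _).1 hx2
  have hcy : c * y ∉ H := fun hm => hyH ((H.mul_mem_cancel_left hc).1 hm)
  refine ⟨y * x, k1, fun hp => ?_, fun hp => ?_⟩
  · -- x = y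
    have hxy : x = y := by
      have := congrArg (fun z => y * z) hp
      simp only [mul_one] at this
      rwa [sq' h] at this
    subst hxy
    have k3 := o_mul h k2 (h.qs1 (c * x))
    have e5 : g * x * (S.neg * (c * x)) = g * (S.neg * c) := by
      have : g * x * (S.neg * (c * x)) = g * (S.neg * c) * (x * x) := by
        simp only [mul_comm, mul_left_comm, mul_assoc]
      rw [this, h.exp2, mul_one]
    rw [e5] at k3
    have k4 := st0 h H hH hcy (H.mul_mem hg (H.mul_mem hn hc)) k3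
    apply hcg
    have := congrArg (fun z => S.neg * g * z) k4
    simp only [mul_one] at this
    rw [← this]
    have e6 : S.neg * g * (g * (S.neg * c)) = (S.neg * S.neg) * (g * g) * c := by
      simp only [mul_comm, mul_left_comm, mul_assoc]
    rw [e6, h.exp2, h.exp2, one_mul, one_mul]
  · -- x = y * (neg * (g * v))
    have hxy : x = y * (S.neg * (g * v)) := by
      have := congrArg (fun z => y * z) hp
      rwa [show y * (y * x) = x from sq' h y x] at this
    have e5 : g * x = S.neg * v * y := by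
      rw [hxy]
      have : g * (y * (S.neg * (g * v))) = (g * g) * (S.neg * v * y) := by
        simp only [mul_comm, mul_left_comm, mul_assoc]
      rw [this, h.exp2, one_mul]
    rw [e5] at k2
    have k3 : S.q y (S.neg * v * y) = S.zero := by
      have := o_mul h e' (h.qs1 y)
      have e6 : v * (S.neg * y) = S.neg * v * y := by
        simp only [mul_comm, mul_left_comm]
      rwa [e6] at this
    have k4 := o_mul h (o_symm h k2) (o_symm h k3)
    rw [mul_assoc c, h.exp2, mul_one] at k4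
    exact hc1 (st0 h H hH hw hc k4)

/-- the elements orthogonal to a slot of the quaternion `t` -/
def Pt (S : QData) (t : S.Q) : Set S.G := {x | ∃ u s, S.q u s = t ∧ S.q u x = S.zero}

include h in
theorem Pt_mul {t : S.Q} {x₁ x₂ : S.G} (h1 : x₁ ∈ Pt S t) (h2 : x₂ ∈ Pt S t) :
    x₁ * x₂ ∈ Pt S t := by
  obtain ⟨u1, s1, e1, f1⟩ := h1
  obtain ⟨u2, s2, e2, f2⟩ := h2
  obtain ⟨w, hw1, hw2⟩ := h.qs4 u1 s1 u2 s2 (e1.trans e2.symm)
  have g1 : S.q (x₁ * w) u1 = t := by rw [h.qs2, o_shift h f1, ← hw1, e1]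
  have g2 : S.q (x₂ * w) u2 = t := by rw [h.qs2, o_shift h f2, ← hw2, e2]
  obtain ⟨s, hs1, hs2⟩ := h.qs4 _ _ _ _ (g1.trans g2.symm)
  refine ⟨s, x₁ * w, by rw [h.qs2, ← hs1, g1], ?_⟩
  have k : S.q s (x₁ * w) = S.q s (x₂ * w) := by
    rw [h.qs2 s, h.qs2 s, ← hs1, ← hs2, g1, g2]
  have k2 := (h.qs3 _ _ _).1 k
  rwa [mul_mul_mul_comm, h.exp2, mul_one] at k2

include h hH in
theorem Pt_iff (hn : S.neg ∈ H) {g y : S.G} (hg : g ∈ H) (hg1 : g ≠ 1) (x : S.G) :
    x ∈ Pt S (S.q g y) ↔ ∃ c ∈ H, ∃ z ∈ H, S.q (c * y) (z * x) = S.zero := by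
  constructor
  · rintro ⟨u, s', e, f⟩
    obtain ⟨s, hs1, hs2⟩ := h.qs4 u s' g y e
    have m1 : y * s ∈ H := (hH g hg hg1 _).1 ((h.qs3 _ _ _).1 hs2)
    have f1 : S.q (x * s) u = S.q g y := by rw [h.qs2, o_shift h f, ← hs1, e]
    obtain ⟨r, hr1, hr2⟩ := h.qs4 _ _ _ _ f1
    have m2 : y * r ∈ H := (hH g hg hg1 _).1 ((h.qs3 _ _ _).1 hr2)
    have f2 : S.q r (x * s) = S.q r g := by
      rw [h.qs2 r, h.qs2 r, ← hr1, ← hr2, f1]
    have f3 := o_mul h ((h.qs3 _ _ _).1 f2) (h.qs1 r)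
    have e5 : x * s * g * (S.neg * r) = (g * S.neg * ((y * s) * (y * r))) * x := by
      have : (g * S.neg * ((y * s) * (y * r))) * x = (y * y) * (x * s * g * (S.neg * r)) := by
        simp only [mul_comm, mul_left_comm, mul_assoc]
      rw [this, h.exp2, one_mul]
    rw [e5] at f3
    refine ⟨y * r, m2, _, H.mul_mem (H.mul_mem hg hn) (H.mul_mem m1 m2), ?_⟩
    have e6 : y * r * y = r := by rw [mul_comm, sq' h]
    rw [e6]
    exact f3
  · rintro ⟨c, hc, z, hz, e⟩
    have h1 : z ∈ Pt S (S.q g y) := ⟨g, y, rfl, (hH g hg hg1 z).2 hz⟩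
    have h2 : z * x ∈ Pt S (S.q g y) :=
      ⟨c * y, g, by rw [h.qs2, o_shift h ((hH g hg hg1 c).2 hc)], e⟩
    have := Pt_mul h h1 h2
    rwa [sq' h] at this

end

end Pool.Agent.L0h68.IV
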