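import Pool.Agent.L0h68.IV.Core

/-! # Isolated value groups: the count -/

set_option autoImplicit false

namespace Pool.Agent.L0h68.IV

open Pool.Agent.H315R3.ETC

section
variable {S : QData} (h : IsQuat S)

include h in
theorem pow2 [Finite S.G] (K : Subgroup S.G) : ∃ n, Nat.card K = 2 ^ n := by
  haveI : Fact (Nat.Prime 2) := ⟨Nat.prime_two⟩
  refine (IsPGroup.iff_card (p := 2) (G := K)).1 fun x => ⟨1, ?_⟩
  apply Subtype.ext
  have := h.exp2 (x : S.G)
  simpa [pow_two] using this

/-- the value group as a subgroup -/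
def VG (h : IsQuat S) (v : S.G) : Subgroup S.G where
  carrier := {w | S.q v w = S.zero}
  one_mem' := o_one h v
  mul_mem' := fun ha hb => o_mul h ha hb
  inv_mem' := fun {x} hx => by
    have : x⁻¹ = x := inv_eq_of_mul_eq_one_left (h.exp2 x)
    rw [this]; exact hx

/-- `Pt` as a subgroup -/
def PG (h : IsQuat S) (g y : S.G) : Subgroup S.G where
  carrier := Pt S (S.q g y)
  one_mem' := ⟨g, y, rfl, o_one h g⟩
  mul_mem' := fun ha hb => Pt_mul h ha hb
  inv_mem' := fun {x} hx => by
    have : x⁻¹ = x := inv_eq_of_mul_eq_one_left (h.exp2 x)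
    rw [this]; exact hx

variable (H : Subgroup S.G) (hH : ∀ x ∈ H, x ≠ 1 → ∀ y, S.q x y = S.zero ↔ y ∈ H)

open Classical in
include h hH in
theorem not_nr [Fintype S.G] (h4 : 4 ≤ Nat.card H) {y : S.G} (hy : y ∉ H) : ¬ NR S y := by
  intro hNR
  set HF : Finset S.G := Finset.univ.filter (· ∈ H) with hHF
  have memH : ∀ x, x ∈ HF ↔ x ∈ H := fun x => by simp [hHF]
  have cardH : Nat.card H = HF.card := Nat.subtype_card HF memH
  have hex : ∀ a b : S.G, ∃ c ∈ H, c ≠ a ∧ c ≠ b := by
    intro a b
    by_contra hcon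
    push Not at hcon
    have h1 : HF ⊆ {a, b} := by
      intro c hc
      rw [Finset.mem_insert, Finset.mem_singleton]
      by_cases hca : c = a
      · exact Or.inl hca
      · exact Or.inr (hcon c ((memH c).1 hc) hca)
    have h2 := Finset.card_le_card h1
    have h3 := Finset.card_le_two (a := a) (b := b)
    omega
  obtain ⟨g, hg, hg1, -⟩ := hex 1 1
  have hn : S.neg ∈ H := neg_mem h H hH ⟨g, hg, hg1⟩
  have hcy : ∀ c ∈ H, c * y ∉ H := fun c hc hm => hy ((H.mul_mem_cancel_left hc).1 hm)
  have hall : ∀ c ∈ H, NR S (c * y) := by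
    intro c hc
    by_cases hc1 : c = 1
    · rw [hc1, one_mul]; exact hNR
    · obtain ⟨d, hd, hd1, hd2⟩ := hex 1 (S.neg * c)
      exact st3 h H hH hn hy hc hc1 hd hd1 hd2 hNR
  let V : S.G → Finset S.G := fun c => Finset.univ.filter fun w => S.q (c * y) w = S.zero
  have memV : ∀ c w, w ∈ V c ↔ S.q (c * y) w = S.zero := fun c w => by simp [V]
  have hV4 : ∀ c ∈ H, ∃ m, 1 ≤ m ∧ (V c).card = 4 * m := by
    intro c hc
    obtain ⟨n, hn'⟩ := pow2 h (VG h (c * y))
    have e1 : Nat.card (VG h (c * y)) = (V c).card := Nat.subtype_card (V c) (memV c)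
    obtain ⟨w, hw, hw1, hw2⟩ := hall c hc
    have hne : S.neg * (c * y) ≠ 1 := by
      intro hm
      apply hcy c hc
      have : c * y = S.neg * (S.neg * (c * y)) := (sq' h _ _).symm
      rw [this, hm, mul_one]; exact hn
    have h3 : 3 ≤ (V c).card := by
      have hsub : ({w, 1, S.neg * (c * y)} : Finset S.G) ⊆ V c := by
        intro x hx
        simp only [Finset.mem_insert, Finset.mem_singleton] at hx
        rcases hx with rfl | rfl | rfl
        · exact (memV _ _).2 hw
        · exact (memV _ _).2 (o_one h _)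
        · exact (memV _ _).2 (h.qs1 _)
      have hc3 : ({w, 1, S.neg * (c * y)} : Finset S.G).card = 3 :=
        Finset.card_eq_three.2 ⟨w, 1, S.neg * (c * y), hw1, hw2, hne.symm, rfl⟩
      rw [← hc3]
      exact Finset.card_le_card hsub
    rw [← e1, hn'] at h3
    rw [← e1, hn']
    obtain _ | _ | n := n
    · norm_num at h3
    · norm_num at h3
    · exact ⟨2 ^ n, Nat.one_le_two_pow, by ring⟩
  let W : S.G → Finset S.G := fun c => ((V c).erase 1).erase (S.neg * (c * y))
  have memW : ∀ c w, w ∈ W c ↔ w ≠ S.neg * (c * y) ∧ w ≠ 1 ∧ S.q (c * y) w = S.zero := by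
    intro c w
    simp only [W, Finset.mem_erase, memV]
  have cardW : ∀ c ∈ H, (W c).card + 2 = (V c).card := by
    intro c hc
    have hne : S.neg * (c * y) ≠ 1 := by
      intro hm
      apply hcy c hc
      have : c * y = S.neg * (S.neg * (c * y)) := (sq' h _ _).symm
      rw [this, hm, mul_one]; exact hn
    have m1 : (1 : S.G) ∈ V c := (memV _ _).2 (o_one h _)
    have m2 : S.neg * (c * y) ∈ (V c).erase 1 :=
      Finset.mem_erase.2 ⟨hne, (memV _ _).2 (h.qs1 _)⟩
    have k1 := Finset.card_erase_add_one m1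
    have k2 := Finset.card_erase_add_one m2
    show (((V c).erase 1).erase (S.neg * (c * y))).card + 2 = (V c).card
    omega
  have wH : ∀ c ∈ H, ∀ w ∈ W c, w ∉ H := by
    intro c hc w hw hwH
    obtain ⟨h1, h2, h3⟩ := (memW c w).1 hw
    exact h2 (st0 h H hH (hcy c hc) hwH h3)
  have wyH : ∀ c ∈ H, ∀ w ∈ W c, c * y * w ∉ H := by
    intro c hc w hw hwH
    obtain ⟨h1, h2, h3⟩ := (memW c w).1 hw
    have k1 := o_mul h (h.qs1 (c * y)) h3
    have k2 : S.neg * (c * y) * w ∈ H := by
      rw [mul_assoc]; exact H.mul_mem hn hwH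
    have k3 := st0 h H hH (hcy c hc) k2 k1
    apply h1
    have := congrArg (fun z => S.neg * (c * y) * z) k3
    simp only [mul_one] at this
    rwa [sq' h] at this
  let F : S.G → Finset S.G := fun c => (HF ×ˢ W c).image fun p => p.1 * p.2
  have memF : ∀ c x, x ∈ F c ↔ ∃ z ∈ H, ∃ w ∈ W c, z * w = x := by
    intro c x
    simp only [F, Finset.mem_image, Finset.mem_product, Prod.exists, memH]
    constructor
    · rintro ⟨z, w, ⟨hz, hw⟩, e⟩
      exact ⟨z, hz, w, hw, e⟩
    · rintro ⟨z, hz, w, hw, e⟩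
      exact ⟨z, w, ⟨hz, hw⟩, e⟩
  have cardF : ∀ c ∈ H, (F c).card = HF.card * (W c).card := by
    intro c hc
    rw [← Finset.card_product]
    refine Finset.card_image_of_injOn ?_
    rintro ⟨z, w⟩ hp ⟨z', w'⟩ hp' e
    simp only [Finset.coe_product, Set.mem_prod, Finset.mem_coe, memH] at hp hp'
    simp only at e
    have h3 := ((memW c w).1 hp.2).2.2
    have h3' := ((memW c w').1 hp'.2).2.2
    have e1 : w * w' = z * z' := by
      have : z * (z * w * w') = z * (z' * w' * w') := by rw [e]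
      rw [mul_assoc z' w', h.exp2, mul_one, mul_assoc z w, sq' h] at this
      exact this
    have h5 : w * w' = 1 :=
      st0 h H hH (hcy c hc) (e1 ▸ H.mul_mem hp.1 hp'.1) (o_mul h h3 h3')
    have h6 : w = w' := by
      have := congrArg (fun z => z * w') h5
      simp only [one_mul] at this
      rwa [mul_assoc, h.exp2, mul_one] at this
    subst h6
    have h7 : z = z' := mul_right_cancel e
    rw [h7]
  have disjF : ∀ c ∈ H, ∀ c' ∈ H, c ≠ c' → Disjoint (F c) (F c') := by
    intro c hc c' hc' hne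
    rw [Finset.disjoint_left]
    intro x hx hx'
    obtain ⟨z, hz, w, hw, e⟩ := (memF c x).1 hx
    obtain ⟨z', hz', w', hw', e'⟩ := (memF c' x).1 hx'
    have h3 := ((memW c w).1 hw).2.2
    have h3' := ((memW c' w').1 hw').2.2
    have k1 : c' * c * (c * y) = c' * y := by rw [mul_assoc, sq' h]
    have k2 : z' * z * w = w' := by rw [mul_assoc, e, ← e', sq' h]
    have k3 := st2 h H hH (hcy c hc) (wH c hc w hw) (wyH c hc w hw) (H.mul_mem hc' hc)
      (H.mul_mem hz' hz) h3 (by rw [k1, k2]; exact h3')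
    apply hne
    have := congrArg (fun z => z * c) k3.1
    simp only [one_mul] at this
    rw [mul_assoc, h.exp2, mul_one] at this
    exact this.symm
  let KF : Finset S.G := HF ∪ HF.image (· * y)
  have cardK : KF.card = 2 * HF.card := by
    rw [Finset.card_union_of_disjoint, Finset.card_image_of_injective]
    · ring
    · exact mul_left_injective y
    · rw [Finset.disjoint_left]
      intro x hx hx'
      obtain ⟨d, hd, rfl⟩ := Finset.mem_image.1 hx'
      exact hcy d ((memH d).1 hd) ((memH _).1 hx)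
  let PF : Finset S.G := Finset.univ.filter (· ∈ PG h g y)
  have memP : ∀ x, x ∈ PF ↔ x ∈ PG h g y := fun x => by simp [PF]
  have memP' : ∀ x, x ∈ PF ↔ ∃ c ∈ H, ∃ z ∈ H, S.q (c * y) (z * x) = S.zero := fun x => by
    rw [memP]
    exact Pt_iff h H hH hn hg hg1 x
  have hPF : PF = KF ∪ HF.biUnion F := by
    ext x
    rw [memP', Finset.mem_union, Finset.mem_union, Finset.mem_biUnion, Finset.mem_image, memH]
    constructor
    · rintro ⟨c, hc, z, hz, e⟩
      by_cases h1 : z * x = 1
      · left; left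
        have : x = z * (z * x) := (sq' h z x).symm
        rw [this, h1, mul_one]; exact hz
      · by_cases h2 : z * x = S.neg * (c * y)
        · left; right
          refine ⟨z * (S.neg * c), (memH _).2 (H.mul_mem hz (H.mul_mem hn hc)), ?_⟩
          have : x = z * (z * x) := (sq' h z x).symm
          rw [this, h2]
          simp only [mul_assoc]
        · right
          exact ⟨c, (memH c).2 hc, (memF c x).2 ⟨z, hz, z * x, (memW _ _).2 ⟨h2, h1, e⟩,
            sq' h z x⟩⟩
    · rintro ((hx | ⟨d, hd, rfl⟩) | ⟨c, hc, hx⟩)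
      · exact ⟨1, H.one_mem, x, hx, by rw [h.exp2]; exact o_one h _⟩
      · refine ⟨1, H.one_mem, S.neg * d, H.mul_mem hn ((memH d).1 hd), ?_⟩
        have : S.neg * d * (d * y) = S.neg * (1 * y) := by rw [mul_assoc, sq' h, one_mul]
        rw [this]; exact h.qs1 _
      · obtain ⟨z, hz, w, hw, rfl⟩ := (memF c x).1 hx
        exact ⟨c, (memH c).1 hc, z, hz, by rw [sq' h]; exact ((memW c w).1 hw).2.2⟩
  have hdisj : Disjoint KF (HF.biUnion F) := by
    rw [Finset.disjoint_left]
    intro x hx hx'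
    obtain ⟨c, hc, hx''⟩ := Finset.mem_biUnion.1 hx'
    obtain ⟨z, hz, w, hw, rfl⟩ := (memF c x).1 hx''
    have hc' := (memH c).1 hc
    rcases Finset.mem_union.1 hx with hx1 | hx1
    · exact wH c hc' w hw ((H.mul_mem_cancel_left hz).1 ((memH _).1 hx1))
    · obtain ⟨d, hd, e⟩ := Finset.mem_image.1 hx1
      have hd' := (memH d).1 hd
      apply wyH c hc' w hw
      have e1 : c * y * w = c * z * d := by
        have : c * y * w = (z * w) * (c * z) * y * (z * z) := by
          simp only [mul_comm, mul_left_comm, mul_assoc]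
          rw [sq' h z]
          rw [sq' h z]
        rw [this, h.exp2, mul_one, ← e]
        have : d * y * (c * z) * y = c * z * d * (y * y) := by
          simp only [mul_comm, mul_left_comm, mul_assoc]
        rw [this, h.exp2, mul_one]
      rw [e1]
      exact H.mul_mem (H.mul_mem hc' hz) hd'
  have hsum : (HF.biUnion F).card = ∑ c ∈ HF, HF.card * (W c).card := by
    rw [Finset.card_biUnion fun c hc c' hc' hne => disjF c ((memH c).1 hc) c' ((memH c').1 hc') hne]
    exact Finset.sum_congr rfl fun c hc => cardF c ((memH c).1 hc)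
  have hcard : PF.card = 2 * HF.card + HF.card * ∑ c ∈ HF, (W c).card := by
    rw [hPF, Finset.card_union_of_disjoint hdisj, cardK, hsum, Finset.mul_sum]
  choose! m hm1 hm2 using hV4
  have hW : ∑ c ∈ HF, (W c).card + 2 * HF.card = 4 * ∑ c ∈ HF, m c := by
    rw [Finset.mul_sum, mul_comm 2, ← smul_eq_mul (HF.card), ← Finset.sum_const,
      ← Finset.sum_add_distrib]
    exact Finset.sum_congr rfl fun c hc => by
      rw [cardW c ((memH c).1 hc), hm2 c ((memH c).1 hc)]
  have hms : HF.card ≤ ∑ c ∈ HF, m c := by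
    rw [Finset.card_eq_sum_ones]
    exact Finset.sum_le_sum fun c hc => hm1 c ((memH c).1 hc)
  obtain ⟨j, hj⟩ := pow2 h H
  obtain ⟨k, hk⟩ := pow2 h (PG h g y)
  have hP : Nat.card (PG h g y) = PF.card := Nat.subtype_card PF memP
  have hM2 : ∃ M', HF.card = 2 * M' ∧ 1 ≤ M' := by
    rw [← cardH, hj]
    rw [hj] at h4
    obtain _ | j := j
    · norm_num at h4
    · exact ⟨2 ^ j, by ring, Nat.one_le_two_pow⟩
  obtain ⟨M', hM', hM1⟩ := hM2
  obtain ⟨T, hT⟩ : ∃ T, ∑ c ∈ HF, m c = M' + T := ⟨∑ c ∈ HF, m c - M', by omega⟩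
  have hT1 : 1 ≤ T := by omega
  have hW2 : ∑ c ∈ HF, (W c).card = 4 * T := by omega
  have hfin : 2 ^ k = 2 * HF.card * (1 + 2 * T) := by
    rw [← hk, hP, hcard, hW2]
    ring
  have hdvd : (1 + 2 * T) ∣ 2 ^ k := ⟨2 * HF.card, by rw [hfin]; ring⟩
  obtain ⟨i, -, hi⟩ := (Nat.dvd_prime_pow Nat.prime_two).1 hdvd
  obtain _ | i := i
  · omega
  · rw [pow_succ] at hi
    omega

include h hH in
/-- outside the isolated value group all value groups are trivial -/
theorem rigid [Finite S.G] (h4 : 4 ≤ Nat.card H) {y : S.G} (hy : y ∉ H) (w : S.G)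
    (e : S.q y w = S.zero) : w = 1 ∨ w = S.neg * y := by
  haveI := Fintype.ofFinite S.G
  by_contra hcon
  push Not at hcon
  exact not_nr h H hH h4 hy ⟨w, e, hcon.1, hcon.2⟩

end

end Pool.Agent.L0h68.IV
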