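import Pool.Agent.L0h68.IV.Count
import Pool.Agent.TH673.VG.Crit

/-! # Isolated value groups: elementary type -/

set_option autoImplicit false

namespace Pool.Agent.L0h68.IV

open Pool.Agent.H315R3.ETC Pool.Agent.TH673.VG

theorem step_all {S : QData} (h : IsQuat S) [Finite S.G] (K : Subgroup S.G)
    (hK : ∀ x ∈ K, x ≠ 1 → ∀ y, S.q x y = S.zero ↔ y ∈ K) (h4 : 4 ≤ Nat.card K)
    (H : Subgroup S.G) (hH : H ≠ ⊤) : Step S H := by
  by_cases hle : K ≤ H
  · obtain ⟨a, ha⟩ : ∃ a, a ∉ H := by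
      by_contra hcon
      push Not at hcon
      exact hH ((Subgroup.eq_top_iff' H).2 hcon)
    refine ⟨a, ha, fun g hg x e => ?_⟩
    have hm : a * g ∉ K := fun hm => ha ((H.mul_mem_cancel_right hg).1 (hle hm))
    rcases rigid h K hK h4 hm x e with rfl | rfl
    · exact ⟨1, 1, o_one h a, H.one_mem, mul_one 1⟩
    · exact ⟨S.neg * a, g, h.qs1 a, hg, mul_assoc _ _ _⟩
  · obtain ⟨a, haK, ha⟩ := SetLike.not_le_iff_exists.1 hle
    refine ⟨a, ha, fun g hg x e => ?_⟩
    have ha1 : a ≠ 1 := fun h1 => ha (h1 ▸ H.one_mem)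
    by_cases hm : a * g ∈ K
    · have hne : a * g ≠ 1 := by
        intro h1
        apply ha
        have : a = a * g * g := by rw [mul_assoc, h.exp2, mul_one]
        rw [this, h1, one_mul]; exact hg
      exact ⟨x, 1, (hK a haK ha1 x).2 ((hK _ hm hne x).1 e), H.one_mem, mul_one x⟩
    · rcases rigid h K hK h4 hm x e with rfl | rfl
      · exact ⟨1, 1, o_one h a, H.one_mem, mul_one 1⟩
      · exact ⟨S.neg * a, g, h.qs1 a, hg, mul_assoc _ _ _⟩

theorem elem_of_isolated {S : QData} (h : IsQuat S) [Finite S.G] (K : Subgroup S.G)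
    (hK : ∀ x ∈ K, x ≠ 1 → ∀ y, S.q x y = S.zero ↔ y ∈ K) (h4 : 4 ≤ Nat.card K) : Elem S :=
  elem_of_step h fun H hH _ => stepTwo_of_step (step_all h K hK h4 H hH)

end Pool.Agent.L0h68.IV
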